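import Pool.Agent.Helper31.BQ.Stmts2

/-!
# Row WK: weak limits in a Hilbert space
-/

set_option autoImplicit false

namespace Pool.Agent.Helper89.BQ

open Filter Topology Pool.Agent.Helper31.BQ

theorem st_WK : ST_WK := by
  intro H _ _ _ p hp hsa h1 h2 h3 x C hx hl
  choose v hv using hl
  have hC : 0 ≤ C := (norm_nonneg _).trans (hx 0)
  -- the limits are bounded
  have hvC : ∀ m, ‖v m‖ ≤ C := by
    intro m
    refine le_of_tendsto (hv m).norm (Eventually.of_forall fun j => ?_)
    calc ‖p m (x j)‖ ≤ ‖p m‖ * ‖x j‖ := (p m).le_opNorm _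
      _ ≤ 1 * C := mul_le_mul (hp m) (hx j) (norm_nonneg _) zero_le_one
      _ = C := one_mul C
  -- they are compatible
  have hcomp : ∀ m m', m ≤ m' → p m (v m') = v m := by
    intro m m' hmm
    have e1 : Tendsto (fun j => p m (p m' (x j))) atTop (𝓝 (p m (v m'))) :=
      ((p m).continuous.tendsto _).comp (hv m')
    have e2 : (fun j => p m (p m' (x j))) = fun j => p m (x j) := by
      funext j
      exact h1 m m' (x j) hmm
    rw [e2] at e1
    exact tendsto_nhds_unique e1 (hv m)
  -- orthogonal increments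
  have hinc : ∀ m m', m ≤ m' → ‖v m' - v m‖ ^ 2 = ‖v m'‖ ^ 2 - ‖v m‖ ^ 2 := by
    intro m m' hmm
    have e1 : inner ℝ (v m') (v m) = ‖v m‖ ^ 2 := by
      have e2 : inner ℝ (v m') (p m (v m)) = inner ℝ (p m (v m')) (v m) := (hsa m _ _).symm
      rw [hcomp m m le_rfl, hcomp m m' hmm] at e2
      rw [e2, real_inner_self_eq_norm_sq]
    rw [norm_sub_sq_real, e1]
    ring
  have hmono : Monotone fun m => ‖v m‖ ^ 2 := by
    intro m m' hmm
    have := hinc m m' hmm
    have h0 := sq_nonneg ‖v m' - v m‖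
    show ‖v m‖ ^ 2 ≤ ‖v m'‖ ^ 2
    linarith
  have hbdd : BddAbove (Set.range fun m => ‖v m‖ ^ 2) := by
    refine ⟨C ^ 2, ?_⟩
    rintro _ ⟨m, rfl⟩
    exact pow_le_pow_left₀ (norm_nonneg _) (hvC m) 2
  have hcau : CauchySeq v := by
    rw [Metric.cauchySeq_iff']
    intro ε hε
    have hc := (tendsto_atTop_ciSup hmono hbdd).cauchySeq
    rw [Metric.cauchySeq_iff'] at hc
    obtain ⟨N, hN⟩ := hc (ε ^ 2) (by positivity)
    refine ⟨N, fun m hm => ?_⟩
    have e1 := hN m hm
    rw [Real.dist_eq] at e1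
    have e2 := hinc N m hm
    rw [dist_eq_norm]
    have e3 : ‖v m - v N‖ ^ 2 < ε ^ 2 := by
      rw [e2]
      exact (le_abs_self _).trans_lt e1
    exact lt_of_pow_lt_pow_left₀ 2 hε.le e3
  obtain ⟨y, hy⟩ := cauchySeq_tendsto_of_complete hcau
  have hpy : ∀ m, p m y = v m := by
    intro m
    have e1 : Tendsto (fun m' => p m (v m')) atTop (𝓝 (p m y)) :=
      ((p m).continuous.tendsto _).comp hy
    have e2 : Tendsto (fun m' => p m (v m')) atTop (𝓝 (v m)) := by
      refine tendsto_const_nhds.congr' ?_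
      filter_upwards [eventually_ge_atTop m] with m' hm'
      exact (hcomp m m' hm').symm
    exact tendsto_nhds_unique e1 e2
  refine ⟨y, ?_, fun m => by rw [hpy m]; exact hv m⟩
  intro z
  rw [Metric.tendsto_atTop]
  intro ε hε
  have hz : Tendsto (fun m => ‖z - p m z‖ * (C + ‖y‖)) atTop (𝓝 0) := by
    have e1 : Tendsto (fun m => ‖z - p m z‖) atTop (𝓝 0) := by
      have := (tendsto_const_nhds (x := z)).sub (h3 z)
      rw [sub_self] at this
      simpa using this.norm
    simpa using e1.mul_const (C + ‖y‖)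
  obtain ⟨m, hm⟩ := (hz.eventually (gt_mem_nhds (half_pos hε))).exists
  have hj : Tendsto (fun j => inner ℝ z (p m (x j) - p m y)) atTop (𝓝 0) := by
    have e1 : Tendsto (fun j => p m (x j) - p m y) atTop (𝓝 0) := by
      have := (hv m).sub (tendsto_const_nhds (x := p m y))
      rw [hpy m, sub_self] at this
      rw [hpy m]
      exact this
    have e2 : Tendsto (fun j => inner ℝ z (p m (x j) - p m y)) atTop (𝓝 (inner ℝ z (0 : H))) :=
      tendsto_const_nhds.inner e1
    rwa [inner_zero_right] at e2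
  rw [Metric.tendsto_atTop] at hj
  obtain ⟨N, hN⟩ := hj (ε / 2) (half_pos hε)
  refine ⟨N, fun j hjN => ?_⟩
  have e1 := hN j hjN
  rw [Real.dist_eq, sub_zero] at e1
  rw [Real.dist_eq]
  have e2 : inner ℝ z (x j) - inner ℝ z y =
      inner ℝ (z - p m z) (x j - y) + inner ℝ z (p m (x j) - p m y) := by
    have e3 : inner ℝ z (p m (x j) - p m y) = inner ℝ (p m z) (x j - y) := by
      rw [← map_sub, ← hsa m]
    rw [e3, ← inner_add_left, sub_add_cancel, inner_sub_right]
  rw [e2]
  have e4 : |inner ℝ (z - p m z) (x j - y)| ≤ ‖z - p m z‖ * (C + ‖y‖) := by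
    refine (abs_real_inner_le_norm _ _).trans (mul_le_mul_of_nonneg_left ?_ (norm_nonneg _))
    exact (norm_sub_le _ _).trans (add_le_add (hx j) le_rfl)
  calc |inner ℝ (z - p m z) (x j - y) + inner ℝ z (p m (x j) - p m y)|
      ≤ |inner ℝ (z - p m z) (x j - y)| + |inner ℝ z (p m (x j) - p m y)| := abs_add_le _ _
    _ < ε := by linarith

end Pool.Agent.Helper89.BQ
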